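import Mathlib

namespace Pool.Agent.H.MP_c0a4b6_co

open Matrix

/-- The 0/1 indicator vector of a subset. -/
def ind {n : ℕ} (S : Finset (Fin n)) : Fin n → ℝ := fun i => if i ∈ S then 1 else 0

/-- The convex hull of the lifted points with finite height. -/
def hull {n : ℕ} (p : Finset (Fin n) → WithTop ℝ) : Set ((Fin n → ℝ) × ℝ) :=
  convexHull ℝ {z | ∃ S, z.1 = ind S ∧ p S = (z.2 : WithTop ℝ)}

/-- The projection of the lower face with inner normal (w, 1). -/
def cell {n : ℕ} (p : Finset (Fin n) → WithTop ℝ) (w : Fin n → ℝ) : Set (Fin n → ℝ) :=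
  Prod.fst '' {z | z ∈ hull p ∧ ∀ y ∈ hull p, z.2 + w ⬝ᵥ z.1 ≤ y.2 + w ⬝ᵥ y.1}

/-- Every one-dimensional cell is parallel to a unit vector, or to a sum or difference of two. -/
def IsValDelta {n : ℕ} (p : Finset (Fin n) → WithTop ℝ) : Prop :=
  ∀ w : Fin n → ℝ, Module.finrank ℝ (vectorSpan ℝ (cell p w)) = 1 →
    (∃ i, vectorSpan ℝ (cell p w) = Submodule.span ℝ {Pi.single i 1}) ∨
    (∃ i j, i ≠ j ∧ vectorSpan ℝ (cell p w) = Submodule.span ℝ {Pi.single i 1 + Pi.single j 1}) ∨
    (∃ i j, i ≠ j ∧ vectorSpan ℝ (cell p w) = Submodule.span ℝ {Pi.single i 1 - Pi.single j 1})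

/-- A nonarchimedean valuation with values in the reals and infinity. -/
structure IsVal {K : Type*} [Field K] (ν : K → WithTop ℝ) : Prop where
  top : ∀ a, ν a = ⊤ ↔ a = 0
  mul : ∀ a b, ν (a * b) = ν a + ν b
  add : ∀ a b, min (ν a) (ν b) ≤ ν (a + b)

variable {n : ℕ}

lemma ind_inj {S T : Finset (Fin n)} (h : ind S = ind T) : S = T := by
  ext i
  have := congrFun h i
  unfold ind at this
  by_cases h1 : i ∈ S <;> by_cases h2 : i ∈ T <;> simp_all

lemma span_neg (v : Fin n → ℝ) : Submodule.span ℝ {-v} = Submodule.span ℝ {v} := by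
  have : -v = (-1 : ℝ) • v := by simp
  rw [this, Submodule.span_singleton_smul_eq (by simp)]

lemma dir {S T : Finset (Fin n)} (hne : S ≠ T) (hc : (symmDiff S T).card ≤ 2) :
    (∃ i, Submodule.span ℝ {ind T - ind S} = Submodule.span ℝ {(Pi.single i 1 : Fin n → ℝ)}) ∨
    (∃ i j, i ≠ j ∧ Submodule.span ℝ {ind T - ind S} =
      Submodule.span ℝ {(Pi.single i 1 + Pi.single j 1 : Fin n → ℝ)}) ∨
    (∃ i j, i ≠ j ∧ Submodule.span ℝ {ind T - ind S} =
      Submodule.span ℝ {(Pi.single i 1 - Pi.single j 1 : Fin n → ℝ)}) := by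
  have h0 : (symmDiff S T).card ≠ 0 := by
    intro h
    exact hne (symmDiff_eq_bot.1 (Finset.card_eq_zero.1 h))
  have key : ∀ k, (ind T - ind S) k =
      if k ∈ symmDiff S T then (if k ∈ S then -1 else 1) else 0 := by
    intro k
    simp only [Pi.sub_apply, ind, Finset.mem_symmDiff]
    by_cases h1 : k ∈ S <;> by_cases h2 : k ∈ T <;> simp [h1, h2]
  rcases (by omega : (symmDiff S T).card = 1 ∨ (symmDiff S T).card = 2) with h | h
  · obtain ⟨i, hi⟩ := Finset.card_eq_one.1 h
    left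
    refine ⟨i, ?_⟩
    by_cases hS : i ∈ S
    · rw [← span_neg]
      congr 2
      funext k
      rw [Pi.neg_apply, key, hi]
      by_cases hk : k = i
      · subst hk; simp [hS]
      · simp [hk]
    · congr 2
      funext k
      rw [key, hi]
      by_cases hk : k = i
      · subst hk; simp [hS]
      · simp [hk]
  · obtain ⟨i, j, hij, hi⟩ := Finset.card_eq_two.1 h
    right
    by_cases hS : i ∈ S <;> by_cases hT : j ∈ S
    · left
      refine ⟨i, j, hij, ?_⟩
      rw [← span_neg]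
      congr 2
      funext k
      rw [Pi.neg_apply, key, hi]
      by_cases hk : k = i
      · subst hk; simp [hS, hij]
      · by_cases hk' : k = j
        · subst hk'; simp [hT, hk]
        · simp [hk, hk']
    · right
      refine ⟨i, j, hij, ?_⟩
      rw [← span_neg]
      congr 2
      funext k
      rw [Pi.neg_apply, key, hi]
      by_cases hk : k = i
      · subst hk; simp [hS, hij]
      · by_cases hk' : k = j
        · subst hk'; simp [hT, hk]
        · simp [hk, hk']
    · right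
      refine ⟨i, j, hij, ?_⟩
      congr 2
      funext k
      rw [key, hi]
      by_cases hk : k = i
      · subst hk; simp [hS, hij]
      · by_cases hk' : k = j
        · subst hk'; simp [hT, hk]
        · simp [hk, hk']
    · left
      refine ⟨i, j, hij, ?_⟩
      congr 2
      funext k
      rw [key, hi]
      by_cases hk : k = i
      · subst hk; simp [hS, hij]
      · by_cases hk' : k = j
        · subst hk'; simp [hT, hk]
        · simp [hk, hk']

lemma geom (p : Finset (Fin n) → WithTop ℝ)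
    (h : ∀ (w : Fin n → ℝ) (S T : Finset (Fin n)) (s t : ℝ), S ≠ T → p S = s → p T = t →
      s + w ⬝ᵥ ind S = t + w ⬝ᵥ ind T →
      (∀ U, U ≠ S → U ≠ T → ∀ u : ℝ, p U = u → s + w ⬝ᵥ ind S < u + w ⬝ᵥ ind U) →
      (symmDiff S T).card ≤ 2) : IsValDelta p := by
  classical
  intro w hw
  set L : Set ((Fin n → ℝ) × ℝ) := {z | ∃ S, z.1 = ind S ∧ p S = (z.2 : WithTop ℝ)} with hL
  let f : (Fin n → ℝ) × ℝ → ℝ := fun z => z.2 + w ⬝ᵥ z.1
  have flin : ∀ (a b : ℝ) (y z : (Fin n → ℝ) × ℝ), f (a • y + b • z) = a * f y + b * f z := by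
    intro a b y z
    simp only [f, Prod.fst_add, Prod.snd_add, Prod.smul_fst, Prod.smul_snd, dotProduct_add,
      dotProduct_smul, smul_eq_mul]
    ring
  have hne : (cell p w).Nonempty := by
    by_contra hc
    rw [Set.not_nonempty_iff_eq_empty.1 hc, vectorSpan_empty, finrank_bot] at hw
    exact absurd hw (by decide)
  have hLne : L.Nonempty := by
    obtain ⟨_, z, ⟨hz, _⟩, _⟩ := hne
    exact convexHull_nonempty_iff.1 ⟨z, hz⟩
  have hLfin : L.Finite := by
    refine (Set.finite_range fun S : Finset (Fin n) => (ind S, (p S).untopD 0)).subset ?_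
    rintro z ⟨S, h1, h2⟩
    exact ⟨S, Prod.ext h1.symm (by simp [h2])⟩
  obtain ⟨z0, hz0, hmin⟩ := Set.exists_min_image L f hLfin hLne
  obtain ⟨S, hS1, hS2⟩ := hz0
  have hlow : ∀ y ∈ hull p, f z0 ≤ f y := by
    intro y hy
    refine convexHull_min (t := {y | f z0 ≤ f y}) hmin ?_ hy
    intro y1 h1 y2 h2 a b ha hb hab
    simp only [Set.mem_ofPred_eq] at h1 h2 ⊢
    rw [flin]
    have e3 : a * f z0 + b * f z0 = f z0 := by rw [← add_mul, hab, one_mul]
    linarith [mul_le_mul_of_nonneg_left h1 ha, mul_le_mul_of_nonneg_left h2 hb]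
  have hin : ∀ z ∈ L, f z = f z0 → z.1 ∈ cell p w := by
    intro z hz hf
    refine ⟨z, ⟨subset_convexHull ℝ _ hz, fun y hy => ?_⟩, rfl⟩
    have := hlow y hy
    rw [← hf] at this
    exact this
  have hz0L : z0 ∈ L := ⟨S, hS1, hS2⟩
  have hex : ∃ z ∈ L, f z = f z0 ∧ z.1 ≠ z0.1 := by
    by_contra hc
    push Not at hc
    have hD : ∀ y ∈ hull p, f z0 ≤ f y ∧ (f y = f z0 → y.1 = z0.1) := by
      intro y hy
      refine convexHull_min (t := {y | f z0 ≤ f y ∧ (f y = f z0 → y.1 = z0.1)})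
        (fun z hz => ⟨hmin z hz, hc z hz⟩) ?_ hy
      intro y1 h1 y2 h2 a b ha hb hab
      simp only [Set.mem_ofPred_eq] at h1 h2 ⊢
      rw [flin]
      have e1 := mul_le_mul_of_nonneg_left h1.1 ha
      have e2 := mul_le_mul_of_nonneg_left h2.1 hb
      have e3 : a * f z0 + b * f z0 = f z0 := by rw [← add_mul, hab, one_mul]
      refine ⟨by linarith, fun he => ?_⟩
      have g1 : a • y1.1 = a • z0.1 := by
        rcases ha.eq_or_lt with h | h
        · rw [← h]; simp
        · rw [h1.2 (mul_left_cancel₀ h.ne' (by linarith))]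
      have g2 : b • y2.1 = b • z0.1 := by
        rcases hb.eq_or_lt with h | h
        · rw [← h]; simp
        · rw [h2.2 (mul_left_cancel₀ h.ne' (by linarith))]
      rw [Prod.fst_add, Prod.smul_fst, Prod.smul_fst, g1, g2, ← add_smul, hab, one_smul]
    have : cell p w ⊆ {z0.1} := by
      rintro _ ⟨z, ⟨hz, hz'⟩, rfl⟩
      exact (hD z hz).2 (le_antisymm (hz' z0 (subset_convexHull ℝ _ hz0L)) (hD z hz).1)
    have h2 := vectorSpan_mono ℝ this
    rw [vectorSpan_singleton, le_bot_iff] at h2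
    rw [h2] at hw
    simp at hw
  obtain ⟨z1, hz1L, hf1, hne1⟩ := hex
  obtain ⟨T, hT1, hT2⟩ := id hz1L
  have hST : S ≠ T := by
    rintro rfl
    exact hne1 (hT1.trans hS1.symm)
  have hv0 : ind T - ind S ≠ 0 := fun h => hST (ind_inj (sub_eq_zero.1 h)).symm
  have hmem : ∀ z ∈ L, f z = f z0 → z.1 - ind S ∈ vectorSpan ℝ (cell p w) := by
    intro z hz hf
    rw [← hS1]
    exact vsub_mem_vectorSpan ℝ (hin z hz hf) (hin z0 hz0L rfl)
  have hV : Submodule.span ℝ {ind T - ind S} = vectorSpan ℝ (cell p w) := by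
    apply Submodule.eq_of_le_of_finrank_eq
    · rw [Submodule.span_singleton_le_iff_mem, ← hT1]
      exact hmem z1 hz1L hf1
    · rw [hw, finrank_span_singleton hv0]
  rw [← hV]
  refine dir hST (h w S T z0.2 z1.2 hST hS2 hT2 ?_ ?_)
  · rw [← hS1, ← hT1]; exact hf1.symm
  · intro U hUS hUT u hu
    have hUL : (ind U, u) ∈ L := ⟨U, rfl, hu⟩
    have h1 := hmin _ hUL
    rw [← hS1]
    refine lt_of_le_of_ne h1 fun he => ?_
    have h2 := hmem _ hUL he.symm
    rw [← hV, Submodule.mem_span_singleton] at h2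
    obtain ⟨c, hc⟩ := h2
    obtain ⟨i, hi⟩ := Function.ne_iff.1 hv0
    have hci := congrFun hc i
    have hc01 : c = 0 ∨ c = 1 := by
      simp only [Pi.smul_apply, Pi.sub_apply, ind, smul_eq_mul, Pi.zero_apply] at hci hi
      by_cases a1 : i ∈ S <;> by_cases a2 : i ∈ T <;> by_cases a3 : i ∈ U <;>
        simp [a1, a2, a3] at hci hi <;> simp [hci]
    rcases hc01 with rfl | rfl
    · rw [zero_smul] at hc
      exact hUS (ind_inj (sub_eq_zero.1 hc.symm))
    · rw [one_smul] at hc
      exact hUT (ind_inj (sub_left_injective hc.symm))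

end Pool.Agent.H.MP_c0a4b6_co
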