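import Pool.Agent.H.MP_c0a4b6_co.A

namespace Pool.Agent.H.MP_c0a4b6_co

open Matrix

variable {K : Type*} [Field K] {ν : K → WithTop ℝ} {n : ℕ}

lemma IsVal.one (h : IsVal ν) : ν 1 = 0 := by
  have h1 := h.mul 1 1
  have h2 : ν 1 ≠ ⊤ := fun e => one_ne_zero ((h.top 1).1 e)
  obtain ⟨x, hx⟩ := WithTop.ne_top_iff_exists.1 h2
  rw [one_mul, ← hx, ← WithTop.coe_add, WithTop.coe_inj] at h1
  rw [← hx]
  have : x = 0 := by linarith
  simp [this]

lemma IsVal.neg (h : IsVal ν) (a : K) : ν (-a) = ν a := by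
  have h1 := h.mul (-1) (-1)
  have h2 : ν (-1) ≠ ⊤ := fun e => by simpa using (h.top (-1)).1 e
  obtain ⟨x, hx⟩ := WithTop.ne_top_iff_exists.1 h2
  rw [neg_mul_neg, one_mul, h.one, ← hx, ← WithTop.coe_add, ← WithTop.coe_zero,
    WithTop.coe_inj] at h1
  have : x = 0 := by linarith
  rw [← neg_one_mul, h.mul, ← hx, this]
  simp

lemma IsVal.gadd (h : IsVal ν) {r : ℝ} {a b : K} (ha : (r : WithTop ℝ) < ν a)
    (hb : (r : WithTop ℝ) < ν b) : (r : WithTop ℝ) < ν (a + b) :=
  lt_of_lt_of_le (lt_min ha hb) (h.add a b)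

lemma IsVal.gsub (h : IsVal ν) {r : ℝ} {a b : K} (ha : (r : WithTop ℝ) < ν a)
    (hb : (r : WithTop ℝ) < ν b) : (r : WithTop ℝ) < ν (a - b) := by
  rw [sub_eq_add_neg]
  exact h.gadd ha (by rwa [h.neg])

lemma IsVal.gmul (h : IsVal ν) {r s : ℝ} {a b : K} (ha : (r : WithTop ℝ) < ν a)
    (hb : (s : WithTop ℝ) < ν b) : ((r + s : ℝ) : WithTop ℝ) < ν (a * b) := by
  rw [h.mul, WithTop.coe_add]
  exact WithTop.add_lt_add ha hb

lemma IsVal.gzero (h : IsVal ν) (r : ℝ) : (r : WithTop ℝ) < ν 0 := by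
  rw [(h.top 0).2 rfl]
  exact WithTop.coe_lt_top r

lemma IsVal.gsum (h : IsVal ν) {ι : Type*} (s : Finset ι) (f : ι → K) {r : ℝ}
    (hf : ∀ i ∈ s, (r : WithTop ℝ) < ν (f i)) : (r : WithTop ℝ) < ν (∑ i ∈ s, f i) :=
  Finset.sum_induction f (fun a => (r : WithTop ℝ) < ν a) (fun _ _ => h.gadd) (h.gzero r) hf

lemma IsVal.gprod (h : IsVal ν) {ι : Type*} {s : Finset ι} (hs : s.Nonempty) (f : ι → K)
    (r : ι → ℝ) (hf : ∀ i ∈ s, (r i : WithTop ℝ) < ν (f i)) :
    ((∑ i ∈ s, r i : ℝ) : WithTop ℝ) < ν (∏ i ∈ s, f i) := by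
  induction hs using Finset.Nonempty.cons_induction with
  | singleton a => simpa using hf
  | cons a s ha hs ih =>
    rw [Finset.sum_cons, Finset.prod_cons]
    exact h.gmul (hf a (by simp)) (ih fun i hi => hf i (by simp [hi]))

lemma IsVal.gdet (h : IsVal ν) {ι : Type*} [Fintype ι] [DecidableEq ι] [Nonempty ι]
    (A : Matrix ι ι K) (c : ι → ℝ) (hA : ∀ i j, ((c i + c j : ℝ) : WithTop ℝ) < ν (A i j)) :
    ((2 * ∑ i, c i : ℝ) : WithTop ℝ) < ν A.det := by
  rw [Matrix.det_apply]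
  refine h.gsum _ _ fun σ _ => ?_
  have h1 := h.gprod Finset.univ_nonempty (fun i => A (σ i) i) (fun i => c (σ i) + c i)
    fun i _ => hA _ _
  rw [Finset.sum_add_distrib, Equiv.sum_comp σ c, ← two_mul] at h1
  rcases Int.units_eq_one_or (Equiv.Perm.sign σ) with e | e <;> rw [e]
  · simpa using h1
  · rw [Units.neg_smul, one_smul, h.neg]; exact h1

lemma half {x : WithTop ℝ} {c : ℝ} (h : ((c + c : ℝ) : WithTop ℝ) < x + x) :
    (c : WithTop ℝ) < x := by
  by_contra hc
  push Not at hc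
  rw [WithTop.coe_add] at h
  exact absurd (add_le_add hc hc) (not_le.2 h)

lemma IsVal.both (h : IsVal ν) {a b : K} {c : ℝ} (h1 : (c : WithTop ℝ) < ν (a + b))
    (h2 : ((c + c : ℝ) : WithTop ℝ) < ν (a * b)) : (c : WithTop ℝ) < ν a := by
  by_contra hc
  have hb : ¬ (c : WithTop ℝ) < ν b := fun hb => hc (by simpa using h.gsub h1 hb)
  push Not at hc hb
  rw [h.mul, WithTop.coe_add] at h2
  exact absurd (add_le_add hc hb) (not_le.2 h2)

lemma det_pair {ι : Type*} [DecidableEq ι] (A : Matrix ι ι K) {i j : ι} (hij : i ≠ j) :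
    (A.submatrix (↑) (↑) : Matrix ({i, j} : Finset ι) ({i, j} : Finset ι) K).det =
      A i i * A j j - A i j * A j i := by
  let e : Fin 2 ≃ ({i, j} : Finset ι) :=
    Equiv.ofBijective ![⟨i, by simp⟩, ⟨j, by simp⟩] (by
      constructor
      · intro a b hab
        fin_cases a <;> fin_cases b <;> simp_all [hij.symm]
      · rintro ⟨x, hx⟩
        rcases Finset.mem_insert.1 hx with rfl | hx'
        · exact ⟨0, rfl⟩
        · obtain rfl := Finset.mem_singleton.1 hx'
          exact ⟨1, rfl⟩)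
  rw [← Matrix.det_submatrix_equiv_self e, Matrix.det_fin_two]
  rfl

lemma det_single {ι : Type*} [DecidableEq ι] (A : Matrix ι ι K) (i : ι) :
    (A.submatrix (↑) (↑) : Matrix ({i} : Finset ι) ({i} : Finset ι) K).det = A i i := by
  rw [Matrix.det_unique]
  rfl

variable [StarRing K]

lemma small (h : IsVal ν) (hs : ∀ a, ν (star a) = ν a) (A : Matrix (Fin n) (Fin n) K)
    (x y : Fin n → K) (hA : A + Aᴴ = vecMulVec x y) (c : Fin n → ℝ) (D : Finset (Fin n))
    (hD : 2 < D.card)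
    (hX : ∀ X : Finset (Fin n), X.Nonempty → X.card ≤ 2 → ((2 * ∑ i ∈ X, c i : ℝ) : WithTop ℝ) <
      ν (A.submatrix (↑) (↑) : Matrix X X K).det) :
    ((2 * ∑ i ∈ D, c i : ℝ) : WithTop ℝ) < ν (A.submatrix (↑) (↑) : Matrix D D K).det := by
  have hN : ∀ i j, A i j + star (A j i) = x i * y j := fun i j => by
    simpa [vecMulVec_apply] using congrFun (congrFun hA i) j
  have h1 : ∀ i, ((c i + c i : ℝ) : WithTop ℝ) < ν (A i i) := fun i => by
    have := hX {i} (by simp) (by simp)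
    rwa [det_single, Finset.sum_singleton, two_mul] at this
  have h2 : ∀ i j, ((c i + c j : ℝ) : WithTop ℝ) < ν (A i j) := fun i j => by
    by_cases hij : i = j
    · subst hij; exact h1 i
    have h3 := hX {i, j} (by simp) Finset.card_le_two
    rw [det_pair A hij, Finset.sum_pair hij] at h3
    have h4 := h.gmul (h1 i) (h1 j)
    rw [show c i + c i + (c j + c j) = 2 * (c i + c j) by ring] at h4
    have h5 := h.gsub h4 h3
    rw [sub_sub_cancel, two_mul, h.mul, ← hs (A j i), ← h.mul] at h5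
    refine h.both (half ?_) h5
    have h6 : ∀ k, ((c k + c k : ℝ) : WithTop ℝ) < ν (x k * y k) := fun k => by
      rw [← hN]; exact h.gadd (h1 k) (by rw [hs]; exact h1 k)
    have h7 := h.gmul (h6 i) (h6 j)
    rw [show x i * y i * (x j * y j) = (x i * y j) * (x j * y i) by ring, ← hN, ← hN, h.mul,
      ← hs (A j i + _), star_add, star_star, add_comm (star (A j i)),
      show c i + c i + (c j + c j) = c i + c j + (c i + c j) by ring] at h7
    exact h7
  have : Nonempty D := (Finset.card_pos.1 (by omega : 0 < D.card)).to_subtype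
  have := h.gdet (A.submatrix (↑) (↑) : Matrix D D K) (fun i => c i) fun i j => h2 i j
  rwa [Finset.sum_coe_sort D c] at this

/-- rows from `M₁` on `S` and from `M₀` elsewhere -/
def mix (M₀ M₁ : Matrix (Fin n) (Fin n) K) (S : Finset (Fin n)) : Matrix (Fin n) (Fin n) K :=
  Matrix.of fun i j => if i ∈ S then M₁ i j else M₀ i j

lemma core (h : IsVal ν) (hs : ∀ a, ν (star a) = ν a) (M₀ M₁ : Matrix (Fin n) (Fin n) K)
    (x y : Fin n → K) (hM : M₀ᴴ * M₁ + M₁ᴴ * M₀ = vecMulVec x y) :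
    IsValDelta fun S => ν (mix M₀ M₁ S).det := by
  refine geom _ fun w S T s t hST hS hT he hU => ?_
  by_contra hc
  push Not at hc
  have hd : (mix M₀ M₁ S).det ≠ 0 := fun e => by
    rw [(h.top _).2 e] at hS
    exact WithTop.top_ne_coe hS
  have hu : IsUnit (mix M₀ M₁ S).det := Ne.isUnit hd
  set P := mix M₀ M₁ S with hP
  set A := mix M₁ M₀ S * P⁻¹ with hAd
  have hPP : Pᴴ * mix M₁ M₀ S + (mix M₁ M₀ S)ᴴ * P = vecMulVec x y := by
    rw [← hM]
    ext a b
    simp only [hP, mix, Matrix.add_apply, Matrix.mul_apply, conjTranspose_apply, of_apply,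
      ← Finset.sum_add_distrib]
    refine Finset.sum_congr rfl fun i _ => ?_
    split_ifs
    · ring
    · rfl
  have hA : A + Aᴴ = vecMulVec ((P⁻¹)ᴴ *ᵥ x) (y ᵥ* P⁻¹) := by
    have e1 : (P⁻¹)ᴴ * Pᴴ = 1 := by rw [← conjTranspose_mul, mul_nonsing_inv _ hu, conjTranspose_one]
    rw [← mul_vecMulVec, ← vecMulVec_mul, ← hPP, hAd, conjTranspose_mul, Matrix.add_mul,
      Matrix.mul_add, Matrix.mul_assoc, Matrix.mul_assoc _ P, mul_nonsing_inv _ hu,
      ← Matrix.mul_assoc, e1, Matrix.one_mul, Matrix.mul_one]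
  have hdet : ∀ X : Finset (Fin n), (mix M₀ M₁ (symmDiff S X)).det =
      (A.submatrix (↑) (↑) : Matrix X X K).det * P.det := by
    intro X
    rw [← det_piecewise_one_eq_submatrix_det, ← det_mul]
    congr 1
    ext i j
    by_cases hi : i ∈ X
    · have : ((Matrix.of (X.piecewise A.row (1 : Matrix (Fin n) (Fin n) K).row)) * P) i j =
          (A * P) i j := by
        simp [Matrix.mul_apply, Finset.piecewise, hi]
      rw [this, hAd, Matrix.mul_assoc, nonsing_inv_mul _ hu, Matrix.mul_one]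
      by_cases h2 : i ∈ S <;> simp [mix, Finset.mem_symmDiff, hi, h2]
    · have : ((Matrix.of (X.piecewise A.row (1 : Matrix (Fin n) (Fin n) K).row)) * P) i j =
          ((1 : Matrix (Fin n) (Fin n) K) * P) i j := by
        simp [Matrix.mul_apply, Finset.piecewise, hi]
      rw [this, Matrix.one_mul, hP]
      by_cases h2 : i ∈ S <;> simp [mix, Finset.mem_symmDiff, hi, h2]
  let c : Fin n → ℝ := fun i => if i ∈ S then w i / 2 else - w i / 2
  have hw : ∀ X : Finset (Fin n), w ⬝ᵥ ind (symmDiff S X) = w ⬝ᵥ ind S - 2 * ∑ i ∈ X, c i := by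
    intro X
    rw [← Finset.univ_inter X, ← Finset.sum_ite_mem, Finset.univ_inter, Finset.mul_sum]
    simp only [dotProduct, ← Finset.sum_sub_distrib]
    refine Finset.sum_congr rfl fun i _ => ?_
    by_cases h1 : i ∈ S <;> by_cases h2 : i ∈ X <;> simp [ind, c, Finset.mem_symmDiff, h1, h2] <;>
      ring
  have hfin := small h hs A _ _ hA c (symmDiff S T) hc (fun X hX hX2 => by
    by_cases htop : ν (A.submatrix (↑) (↑) : Matrix X X K).det = ⊤
    · rw [htop]; exact WithTop.coe_lt_top _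
    obtain ⟨u, hu'⟩ := WithTop.ne_top_iff_exists.1 htop
    have := hU (symmDiff S X) (by simpa using hX.ne_empty) (fun e => by
      rw [← e, symmDiff_symmDiff_cancel_left] at hc; omega) (u + s)
      (by rw [hdet, h.mul, ← hu', hS, WithTop.coe_add])
    rw [hw] at this
    rw [← hu', WithTop.coe_lt_coe]
    linarith)
  have e1 := hdet (symmDiff S T)
  have e2 := hw (symmDiff S T)
  rw [symmDiff_symmDiff_cancel_left] at e1 e2
  rw [e1, h.mul, hS] at hT
  have := WithTop.add_lt_add_right (WithTop.coe_ne_top (a := s)) hfin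
  rw [hT, ← WithTop.coe_add, WithTop.coe_lt_coe] at this
  linarith

lemma core' (h : IsVal ν) (hs : ∀ a, ν (star a) = ν a) (A : Matrix (Fin n) (Fin n) K)
    (x y : Fin n → K) (hA : A + Aᴴ = vecMulVec x y) :
    IsValDelta fun S : Finset (Fin n) => ν (A.submatrix (↑) (↑) : Matrix S S K).det := by
  have := core h hs 1 A x y (by simpa using hA)
  convert this using 3 with S
  rw [← det_piecewise_one_eq_submatrix_det]
  congr 1
  ext i j
  by_cases hi : i ∈ S <;> simp [mix, Finset.piecewise, hi]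

omit [StarRing K] in
lemma rank_one (C : Matrix (Fin n) (Fin n) K) (hC : C.rank = 1) : ∃ x y, C = vecMulVec x y := by
  rw [rank_eq_finrank_span_cols] at hC
  obtain ⟨v, hv⟩ := finrank_le_one_iff.1 hC.le
  choose y hy using fun j => hv ⟨C.col j, Submodule.subset_span ⟨j, rfl⟩⟩
  refine ⟨v.1, y, ?_⟩
  ext i j
  have := congrFun (congrArg Subtype.val (hy j)) i
  simp only [SetLike.val_smul, Pi.smul_apply, smul_eq_mul, col_apply] at this
  rw [vecMulVec_apply, ← this, mul_comm]

end Pool.Agent.H.MP_c0a4b6_co
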